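import Mathlib
import Pool.Agent.Helper63.GQMax
import Pool.Agent.Helper63.GQAnal
import Pool.Agent.Helper63.GQCoh
import Pool.Agent.Helper63.GQNec
import Pool.Agent.Helper63.GQUniq

/-! Classification of the analytic Gaussian quantum Markov semigroups. -/

namespace Pool.Agent.Results.MP_7150bc_an.Classification

open Pool.Agent.Helper63.GQ
open ComplexConjugate Filter Topology Matrix

variable {d : ℕ}

theorem genGraph_sect (p : Params d) {k : ℝ}
    (hk : ∀ u : Ss d, k * |(inner ℂ (iS u) (iS (gen p aR cR u))).im| ≤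
      -(inner ℂ (iS u) (iS (gen p aR cR u))).re + ‖iS u‖ ^ 2)
    {x y : lp (fun _ : Fin d → ℕ => ℂ) 2} (hxy : (x, y) ∈ genGraph p) :
    k * |(inner ℂ x y).im| ≤ -(inner ℂ x y).re + ‖x‖ ^ 2 := by
  have hin : Continuous (fun q : lp (fun _ : Fin d → ℕ => ℂ) 2 × lp (fun _ : Fin d → ℕ => ℂ) 2 =>
      (inner ℂ q.1 q.2 : ℂ)) := continuous_fst.inner continuous_snd
  have hS : IsClosed {q : lp (fun _ : Fin d → ℕ => ℂ) 2 × lp (fun _ : Fin d → ℕ => ℂ) 2 |
      k * |(inner ℂ q.1 q.2).im| ≤ -(inner ℂ q.1 q.2).re + ‖q.1‖ ^ 2} := by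
    refine isClosed_le ?_ ?_
    · exact continuous_const.mul (continuous_abs.comp (Complex.continuous_im.comp hin))
    · exact (Complex.continuous_re.comp hin).neg.add ((continuous_norm.comp continuous_fst).pow 2)
  refine genGraph_closed_cond p hS (fun f => ?_) hxy
  have := hk (JS f)
  rw [← JS_gen, ← toFock_eq, ← toFock_eq] at this
  exact this

theorem analytic_iff_cond (p : Params d)
    {P : ℝ → lp (fun _ : Fin d → ℕ => ℂ) 2 →L[ℂ] lp (fun _ : Fin d → ℕ => ℂ) 2}
    (hP : IsContractionSemigroup P) (hG : HasGenerator P (genGraph p)) :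
    IsAnalyticSemigroup P ↔ Cond p := by
  constructor
  · intro hA
    apply cond_of_bound
    obtain ⟨C, hC, hb⟩ := quasimode hP hA
    obtain ⟨K, hK, hb2⟩ := (ccr_S (d := d)).coherent p
    refine ⟨C * K, by positivity, fun al => ?_⟩
    obtain ⟨psi, hpsi, hn⟩ := exists_coherent al
    have h1 := hb2 al psi hpsi hn
    have hS : 1 ≤ Sz p al := by
      unfold Sz
      have h2 : 0 ≤ ∑ j, ‖hh p j al‖ := Finset.sum_nonneg (fun j _ => norm_nonneg _)
      have h3 : 0 ≤ ∑ l, ‖Lam p l al‖ ^ 2 := Finset.sum_nonneg (fun j _ => by positivity)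
      linarith
    have h2 := hb (iS psi) (iS (gen p aR cR psi)) (-(Hs p al)) (K * Sz p al)
      ((hG _ _).1 (S_mem_genGraph p psi)) hn (by nlinarith) h1
    rw [abs_neg] at h2
    calc |Hs p al| ≤ C * (K * Sz p al) := h2
      _ = C * K * Sz p al := by ring
  · intro hc
    obtain ⟨k, hk, hb⟩ := (ccr_S (d := d)).sectorial p hc
    refine analytic_of_sect (genSub_msect p) hk (fun x y hxy => ?_) hP ?_
    · exact genGraph_sect p hb ((mem_genSub p x y).1 hxy)
    · rw [genSub_coe]; exact hG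

theorem cond_iff (p : Params d) : Cond p ↔ ∀ z : Fin d → ℂ,
    p.V.map (starRingEnd ℂ) *ᵥ z + p.U *ᵥ star z = 0 →
      p.Ω *ᵥ z + p.κ *ᵥ star z = 0 ∧ (star p.ζ ⬝ᵥ z).re = 0 := by
  unfold Cond
  refine forall_congr' (fun z => ?_)
  have h1 : (∀ l, Lam p l z = 0) ↔ p.V.map (starRingEnd ℂ) *ᵥ z + p.U *ᵥ star z = 0 := by
    rw [funext_iff]
    refine forall_congr' (fun l => ?_)
    rw [Lam_apply, Finset.sum_add_distrib]
    rfl
  have h2 : (∀ j, hh p j z = 0) ↔ p.Ω *ᵥ z + p.κ *ᵥ star z = 0 := by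
    rw [funext_iff]
    refine forall_congr' (fun l => ?_)
    rw [hh_apply, Finset.sum_add_distrib]
    rfl
  have h3 : ze p z = 0 ↔ (star p.ζ ⬝ᵥ z).re = 0 := by
    rw [ze_apply, Complex.ofReal_eq_zero]
    rfl
  rw [h1, h2, h3]

/-- The Hilbert space `ℓ²(ℕ^d; ℂ)`. -/
def Fock (d : ℕ) : Type := lp (fun _ : Fin d → ℕ => ℂ) 2

noncomputable instance (d : ℕ) : NormedAddCommGroup (Fock d) :=
  @lp.normedAddCommGroup (Fin d → ℕ) (fun _ => ℂ) 2 _ _

noncomputable instance (d : ℕ) : InnerProductSpace ℂ (Fock d) :=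
  @lp.instInnerProductSpace (Fin d → ℕ) ℂ _ (fun _ => ℂ) _ _

/-- The basis vector `e(n)`. -/
noncomputable def basisVec (n : Fin d → ℕ) : Fock d := lp.single 2 n (1 : ℂ)

/-- The vector of `ℓ²(ℕ^d)` given by a finite linear combination of basis vectors. -/
noncomputable def vec : ((Fin d → ℕ) →₀ ℂ) →ₗ[ℂ] Fock d :=
  Finsupp.linearCombination ℂ basisVec

/-- The graph of `G`: the closure of the graph of the operator on finite linear combinations. -/
noncomputable def graphG (p : Params d) : Set (Fock d × Fock d) :=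
  closure (Set.range (fun f : (Fin d → ℕ) →₀ ℂ => (vec f, vec (gen p ann cre f))))

/-- For every choice of the parameters, the closed operator `G` is the generator of a strongly
continuous semigroup of contractions, and this semigroup is analytic if and only if every
`z ∈ ℂ^d` with `conj V z + U conj z = 0` satisfies `Ω z + κ conj z = 0` and `Re (ζ^* z) = 0`. -/
theorem result (d : ℕ) (p : Params d) :
    (∃ P : ℝ → Fock d →L[ℂ] Fock d, IsContractionSemigroup P ∧ HasGenerator P (graphG p)) ∧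
    ∀ P : ℝ → Fock d →L[ℂ] Fock d, IsContractionSemigroup P → HasGenerator P (graphG p) →
      (IsAnalyticSemigroup P ↔ ∀ z : Fin d → ℂ,
        p.V.map (starRingEnd ℂ) *ᵥ z + p.U *ᵥ star z = 0 →
          p.Ω *ᵥ z + p.κ *ᵥ star z = 0 ∧ (star p.ζ ⬝ᵥ z).re = 0) := by
  refine ⟨⟨_, (genSub_msect p).semigroup, ?_⟩, fun P hP hG => ?_⟩
  · have := (genSub_msect p).generator
    rw [genSub_coe] at this
    exact this
  · rw [← cond_iff]
    exact analytic_iff_cond p hP hG

end Pool.Agent.Results.MP_7150bc_an.Classification
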